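import Mathlib
import Pool.Agent.B4.BO6
import Pool.Agent.B4.Start

/-!
# K80: strict positivity of the even Bezout kernel `XH` of `a ∘ a` for `a` in `PF n`
-/

open Polynomial Finset

namespace Pool.Agent.K80

open B4 Pool.Agent.H62LR

lemma pA_ch {n : ℕ} {b : ℕ → ℝ} (hb : PF n b) {z : ℂ} (hz : 0 ≤ z.re) (hz0 : z ≠ 0) :
    (∀ u : ℂ, (pA n b z).eval u = 0 → u.re ≤ 0) ∧ (pA n b z).eval 0 ≠ 0 := by
  have h0 : (pA n b z).eval 0 ≠ 0 := by
    rw [pA_eval, mul_zero]
    intro h
    obtain ⟨s, hs, hs'⟩ := ev_zero_neg hb h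
    have : (s : ℂ) = 0 := by linear_combination hs'
    exact hs.ne' (by exact_mod_cast this)
  refine ⟨fun u hu => ?_, h0⟩
  rw [pA_eval] at hu
  obtain ⟨s, hs, hs'⟩ := ev_zero_neg hb hu
  have hu' : u = -(s : ℂ) / z := by rw [eq_div_iff hz0]; linear_combination hs'
  rw [hu', Complex.div_re]
  have hn : 0 < Complex.normSq z := Complex.normSq_pos.mpr hz0
  simp only [Complex.neg_re, Complex.ofReal_re, Complex.neg_im, Complex.ofReal_im, neg_zero,
    zero_mul, zero_div, add_zero]
  rw [div_nonpos_iff]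
  right
  exact ⟨by nlinarith, hn.le⟩

lemma pB_ch {n : ℕ} {b : ℕ → ℝ} (hb : PF n b) {z : ℂ} (hz : 0 ≤ z.re) (hz0 : z ≠ 0) :
    (∀ u : ℂ, (pB n b z).eval u = 0 → u.re ≤ 0) ∧ (pB n b z).eval 0 ≠ 0 := by
  have h0 : (pB n b z).eval 0 ≠ 0 := by
    unfold pB
    rw [eval_finsetSum, Finset.sum_range_succ]
    have h1 : ∑ k ∈ range n, (monomial (n - k) ((b k : ℂ) * z ^ k)).eval 0 = 0 := by
      refine Finset.sum_eq_zero (fun k hk => ?_)
      have := Finset.mem_range.mp hk
      rw [eval_monomial, zero_pow (by omega), mul_zero]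
    rw [h1, eval_monomial, zero_add, Nat.sub_self, pow_zero, mul_one]
    refine mul_ne_zero ?_ (pow_ne_zero _ hz0)
    exact_mod_cast (hb.1 n le_rfl).ne'
  refine ⟨fun u hu => ?_, h0⟩
  by_cases hu0 : u = 0
  · rw [hu0] at hu; exact absurd hu h0
  rw [pB_eval n b z u hu0, mul_eq_zero] at hu
  have hu1 : ev n b (z / u) = 0 := by
    rcases hu with h | h
    · exact absurd h (pow_ne_zero _ hu0)
    · exact h
  obtain ⟨s, hs, hs'⟩ := ev_zero_neg hb hu1
  have hs0 : (s : ℂ) ≠ 0 := by exact_mod_cast hs.ne'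
  have hu' : z = -(s : ℂ) * u := by rw [← hs']; field_simp
  have : z.re = -s * u.re := by rw [hu']; simp
  nlinarith

/-- the doubled polynomial has no zeros in the closed right half plane -/
theorem start_closed {n : ℕ} {b : ℕ → ℝ} (hb : PF n b) {z : ℂ} (hz : 0 ≤ z.re) :
    ev (2 * n) (dbl b) z ≠ 0 := by
  by_cases hz0 : z = 0
  · subst hz0
    unfold ev
    rw [Finset.sum_range_succ']
    have h1 : ∑ k ∈ range (2 * n), (dbl b (k + 1) : ℂ) * 0 ^ (k + 1) = 0 := by
      refine Finset.sum_eq_zero (fun k _ => ?_)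
      simp
    rw [h1, zero_add, pow_zero, mul_one]
    have := hb.1 0 (Nat.zero_le _)
    have h2 : dbl b 0 = b 0 ^ 2 := by
      have := dbl_even b 0
      simpa using this
    rw [h2]
    exact_mod_cast (pow_pos this 2).ne'
  obtain ⟨a1, a2⟩ := pA_ch hb hz hz0
  obtain ⟨b1, b2⟩ := pB_ch hb hz hz0
  have hne : pA n b z * pB n b z ≠ 0 := by
    intro h
    have := congrArg (Polynomial.eval 0) h
    rw [eval_mul, eval_zero] at this
    exact mul_ne_zero a2 b2 this
  have hCH := CH.mk' (R := pA n b z * pB n b z) hne (by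
    intro u hu
    rw [eval_mul] at hu
    rcases mul_eq_zero.1 hu with h | h
    · exact a1 u h
    · exact b1 u h) (by rw [eval_mul]; exact mul_ne_zero a2 b2)
  -- the degree of the product
  have hc2 : (pA n b z * pB n b z).coeff (n + n) ≠ 0 := by
    rw [mul_coeff]
    rw [Finset.sum_eq_single 0]
    · rw [if_pos (by omega)]
      refine mul_ne_zero ?_ (pow_ne_zero _ hz0)
      have := mul_pos (hb.1 0 (Nat.zero_le _)) (hb.1 n le_rfl)
      rw [zero_add]
      exact_mod_cast this.ne'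
    · intro k _ hk
      rw [if_neg (by omega)]
    · intro h
      simp at h
  have hdeg : n + n ≤ (pA n b z * pB n b z).natDegree := le_natDegree_of_ne_zero hc2
  have hdegQ : n + 1 ≤ ((X + C 1) * (pA n b z * pB n b z)).natDegree := by
    rw [natDegree_mul (X_add_C_ne_zero 1) hne, natDegree_X_add_C]
    omega
  have h := hCH.coeff_ne_zero (n + 1) hdegQ
  rw [add_mul, coeff_add, coeff_X_mul, coeff_C_mul, one_mul] at h
  have h0 := mul_coeff n 0 b z
  rw [Nat.add_zero] at h0
  rw [h0, mul_coeff n 1 b z] at h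
  intro hzero
  apply h
  rw [ev_split] at hzero
  rw [Finset.sum_range_succ (n := n) (f := fun k => if k + 1 ≤ n then
        ((b k * b (k + 1) : ℝ) : ℂ) * z ^ (2 * k + 1) else 0), if_neg (by omega), add_zero,
    ← hzero]
  congr 1
  · refine Finset.sum_congr rfl (fun k hk => ?_)
    have hk' : k ≤ n := by simpa [Nat.lt_succ_iff] using hk
    rw [if_pos (by omega), dbl_even, Nat.add_zero]
    push_cast
    ring
  · refine Finset.sum_congr rfl (fun k hk => ?_)
    have hk' := Finset.mem_range.mp hk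
    rw [if_pos (by omega), dbl_odd]

/-- **Even block**, strict form, for a polynomial without zeros in the closed right half plane. -/
theorem hb_even_pos {N : ℕ} {h : ℕ → ℝ} (hN : h N ≠ 0) (h0 : ∀ m, N < m → h m = 0)
    (hH : ∀ z : ℂ, 0 ≤ z.re → Pool.Agent.H62LR.ev N h z ≠ 0) (n : ℕ) (hn : 2 * n ≤ N + 1)
    (w : ℕ → ℝ) (hw : ∃ k < n, w k ≠ 0) :
    0 < ∑ j ∈ range n, ∑ k ∈ range n, w j * w k *
      BZ (sh (fun i => h (2 * i + 1))) (fun i => h (2 * i)) j k := by
  obtain ⟨L, hL, hspan⟩ := exists_cert_real hN (fun z hz => hH z hz.le)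
  have h1 := KL_form L n w (fun j => 2 * j)
  have h2 : ∑ j ∈ range n, ∑ k ∈ range n, (w j : ℂ) * w k * KL L (2 * j) (2 * k)
      = ((2 * ∑ j ∈ range n, ∑ k ∈ range n, w j * w k *
      BZ (sh (fun i => h (2 * i + 1))) (fun i => h (2 * i)) j k : ℝ) : ℂ) := by
    push_cast
    rw [Finset.mul_sum]
    refine Finset.sum_congr rfl (fun j _ => ?_)
    rw [Finset.mul_sum]
    refine Finset.sum_congr rfl (fun k _ => ?_)
    rw [(KL_even_odd hL h0 k).1 j]
    push_cast
    ring
  rw [h2] at h1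
  have h3 := Complex.ofReal_injective h1
  have h4 := list_sum_nonneg L (fun P => Complex.normSq (∑ j ∈ range n, (w j : ℂ) *
    P.coeff (2 * j))) (fun P => Complex.normSq_nonneg _)
  rw [← h3] at h4
  rcases h4.lt_or_eq with h5 | h5
  · linarith
  exfalso
  rw [← h5] at h3
  have h6 := list_sum_eq_zero L (fun P => Complex.normSq (∑ j ∈ range n, (w j : ℂ) *
    P.coeff (2 * j))) (fun P => Complex.normSq_nonneg _) h3.symm
  have h7 : ∀ P ∈ Submodule.span ℂ {P | P ∈ L}, ∑ j ∈ range n, (w j : ℂ) *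
      P.coeff (2 * j) = 0 := by
    intro P hP
    induction hP using Submodule.span_induction with
    | mem x hx => exact Complex.normSq_eq_zero.1 (h6 x hx)
    | zero => simp
    | add x y _ _ hx hy =>
      simp only [coeff_add, mul_add, Finset.sum_add_distrib]
      rw [hx, hy, add_zero]
    | smul c x _ hx =>
      simp only [coeff_smul, smul_eq_mul]
      have : ∀ j, (w j : ℂ) * (c * x.coeff (2 * j)) = c * ((w j : ℂ) * x.coeff (2 * j)) := by
        intro j; ring
      simp only [this]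
      rw [← Finset.mul_sum, hx, mul_zero]
  obtain ⟨k, hk, hwk⟩ := hw
  have h8 := h7 (X ^ (2 * k)) (hspan hH _ (by
    rw [degree_X_pow]
    exact_mod_cast (by omega : 2 * k < N)))
  rw [Finset.sum_eq_single k] at h8
  · rw [coeff_X_pow, if_pos rfl, mul_one] at h8
    exact hwk (by exact_mod_cast h8)
  · intro j _ hjk
    rw [coeff_X_pow, if_neg (by omega), mul_zero]
  · intro hk'
    exact absurd (Finset.mem_range.2 hk) hk'

/-- `XH` is the even Bezout form -/
lemma XH_eq_BZ (b : ℕ → ℝ) : ∀ k j : ℕ,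
    XH b j k = BZ (sh (fun i => b i * b (i + 1))) (fun i => b i ^ 2) j k := by
  intro k
  induction k with
  | zero =>
    intro j
    rw [XH_symm, XH_symm, BZ_zero]
    have := XH_zero b j
    rw [XH_symm] at this
    rw [this]
    simp
    ring
  | succ k ih =>
    intro j
    rw [BZ_succ, ← ih (j + 1)]
    unfold XH
    have e : 2 * (k + 1) + 1 = 2 * k + 1 + 1 + 1 := by ring
    have e' : 2 * j + 2 * (k + 1) + 1 = 2 * (j + 1) + 2 * k + 1 := by ring
    rw [e, e', Finset.sum_range_succ, Finset.sum_range_succ]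
    have e1 : 2 * (j + 1) + 2 * k + 1 - (2 * k + 1) = 2 * (j + 1) := by omega
    have e2 : 2 * (j + 1) + 2 * k + 1 - (2 * k + 1 + 1) = 2 * j + 1 := by omega
    have e3 : (2 * k + 1 + 1) = 2 * (k + 1) := by ring
    rw [e1, e2, e3, dbl_even, dbl_even, dbl_odd, dbl_odd]
    have e4 : (-1 : ℝ) ^ (2 * (k + 1)) = 1 := by rw [pow_mul]; norm_num
    have e5 : (-1 : ℝ) ^ (2 * k + 1) = -1 := by rw [pow_succ, pow_mul]; norm_num
    rw [e4, e5]
    simp only [sh_succ]
    ring

/-- **Strict Malo form**: `XH` is positive definite on `0, …, n-1`. -/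
theorem XH_pos {n : ℕ} {b : ℕ → ℝ} (hb : PF n b) (h0 : ∀ k, n < k → b k = 0) (w : ℕ → ℝ)
    (hw : ∃ k < n, w k ≠ 0) :
    0 < ∑ j ∈ range n, ∑ k ∈ range n, XH b j k * (w j * w k) := by
  have hN : dbl b (2 * n) ≠ 0 := by
    rw [dbl_even]
    exact (pow_pos (hb.1 n le_rfl) 2).ne'
  have hz : ∀ m, 2 * n < m → dbl b m = 0 := by
    intro m hm
    unfold dbl
    rw [h0 ((m + 1) / 2) (by omega), mul_zero]
  have h := hb_even_pos hN hz (fun z hz => start_closed hb hz) n (by omega) w hw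
  refine h.trans_eq ?_
  refine Finset.sum_congr rfl (fun j _ => Finset.sum_congr rfl (fun k _ => ?_))
  rw [XH_eq_BZ]
  have e1 : (fun i => dbl b (2 * i + 1)) = (fun i => b i * b (i + 1)) := funext (dbl_odd b)
  have e2 : (fun i => dbl b (2 * i)) = (fun i => b i ^ 2) := funext (dbl_even b)
  rw [e1, e2]
  ring

end Pool.Agent.K80
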