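import Mathlib
import Pool.Agent.K80.XPos
import Pool.Agent.ST50.Final
import Pool.Agent.ST11.Kernels

/-!
# K80: a kernel inequality on the null space of a touch point excludes extremal points

`T_k = a_k / a_{k+1}`, `φ_l(k) = a^{(l)}_k / a_k`, `X` = normalised even Bezout kernel of `a ∘ a`.
`TouchNonneg`: for every `λ > 0` the form `[2λ + T_j + T_k - (j-k)(T_j-T_k)] X(j,k)` is `≥ 0` on
all `w` with `∑ w_k (T_k + λ) φ_l(k) = 0` for every root `l`.
-/

open Polynomial Finset MeasureTheory

namespace Pool.Agent.K80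

open B4 hiding cf cf_zero cf_eq_zero cf_pos
open Pool.Agent.ST50 Pool.Agent.ST11

/-! ### Loewner step for one vector -/

theorem loewner_vec {n : ℕ} {G : ℕ → ℕ → ℝ} {d x : ℕ → ℝ} (hd : ∀ j < n, 0 < d j)
    (h1 : 0 < ∑ j ∈ range n, ∑ k ∈ range n, G j k * (x j * x k))
    (h2 : ∀ t : ℝ, 0 < t →
      0 ≤ ∑ j ∈ range n, ∑ k ∈ range n, G j k * (d k / (t + d k)) * (x j * x k))
    {s : ℝ} (hs : 0 ≤ s) (hs1 : s < 1) :
    0 < ∑ j ∈ range n, ∑ k ∈ range n, G j k * d k ^ s * (x j * x k) := by
  rcases hs.eq_or_lt with rfl | hs0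
  · simpa using h1
  have hp : s ∈ Set.Ioo (0 : ℝ) 1 := ⟨hs0, hs1⟩
  set Q : ℝ → ℝ := fun t => ∑ j ∈ range n, ∑ k ∈ range n,
    G j k * (d k / (t + d k)) * (x j * x k) with hQ
  set F : ℝ → ℝ := fun t => ∑ j ∈ range n, ∑ k ∈ range n,
    G j k * Real.rpowIntegrand₀₁ s t (d k) * (x j * x k) with hF
  have hint : ∀ j ∈ range n, ∀ k ∈ range n, IntegrableOn
      (fun t => G j k * Real.rpowIntegrand₀₁ s t (d k) * (x j * x k)) (Set.Ioi 0) volume := by
    intro j _ k hk
    have := Real.integrableOn_rpowIntegrand₀₁_Ioi hp (hd k (mem_range.mp hk)).le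
    exact (this.const_mul _).mul_const _
  have hFint : IntegrableOn F (Set.Ioi 0) volume := by
    refine integrable_finsetSum _ (fun j hj => integrable_finsetSum _ (fun k hk => ?_))
    exact hint j hj k hk
  set c : ℝ := ∫ t in Set.Ioi 0, Real.rpowIntegrand₀₁ s t 1 with hc
  have hc0 : 0 < c := Real.integral_rpowIntegrand₀₁_one_pos hp
  have hval : ∫ t in Set.Ioi 0, F t
      = (∑ j ∈ range n, ∑ k ∈ range n, G j k * d k ^ s * (x j * x k)) * c := by
    rw [hF, integral_finsetSum, Finset.sum_mul]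
    · refine Finset.sum_congr rfl (fun j hj => ?_)
      rw [integral_finsetSum, Finset.sum_mul]
      · refine Finset.sum_congr rfl (fun k hk => ?_)
        rw [integral_mul_const, integral_const_mul,
          Real.integral_rpowIntegrand₀₁_eq_rpow_mul_const hp (hd k (mem_range.mp hk)).le]
        ring
      · exact fun k hk => hint j hj k hk
    · exact fun j hj => integrable_finsetSum _ (fun k hk => hint j hj k hk)
  have hFQ : ∀ t : ℝ, 0 < t → F t = t ^ (s - 1) * Q t := by
    intro t ht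
    rw [hF, hQ, Finset.mul_sum]
    refine Finset.sum_congr rfl (fun j _ => ?_)
    rw [Finset.mul_sum]
    refine Finset.sum_congr rfl (fun k hk => ?_)
    rw [Real.rpowIntegrand₀₁_eq_pow_div hp ht.le (hd k (mem_range.mp hk)).le]
    ring
  have hnn : ∀ t ∈ Set.Ioi (0 : ℝ), 0 ≤ F t := by
    intro t ht
    rw [hFQ t ht]
    exact mul_nonneg (Real.rpow_nonneg (le_of_lt ht) _) (h2 t ht)
  -- positivity near `0`
  have hQc : ContinuousAt Q 0 := by
    have : ∀ j ∈ range n, ∀ k ∈ range n, ContinuousAt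
        (fun t : ℝ => G j k * (d k / (t + d k)) * (x j * x k)) 0 := by
      intro j _ k hk
      have := hd k (mem_range.mp hk)
      refine ((ContinuousAt.div continuousAt_const (continuousAt_id.add continuousAt_const)
        ?_).const_mul _).mul_const _
      simpa using this.ne'
    rw [hQ]
    exact tendsto_finsetSum _ (fun j hj => tendsto_finsetSum _ (fun k hk => this j hj k hk))
  have hQ0 : 0 < Q 0 := by
    refine h1.trans_eq ?_
    rw [hQ]
    refine Finset.sum_congr rfl (fun j _ => Finset.sum_congr rfl (fun k hk => ?_))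
    have := hd k (mem_range.mp hk)
    rw [zero_add, div_self this.ne', mul_one]
  have hev : ∀ᶠ t in nhds (0 : ℝ), 0 < Q t := hQc.eventually (lt_mem_nhds hQ0)
  obtain ⟨ε, hε, hball⟩ := Metric.eventually_nhds_iff.1 hev
  have hmain : 0 < ∫ t in Set.Ioi 0, F t := by
    rw [setIntegral_pos_iff_support_of_nonneg_ae]
    · have hsub : Set.Ioo (0 : ℝ) ε ⊆ Function.support F ∩ Set.Ioi 0 := by
        intro t ht
        refine ⟨?_, ht.1⟩
        have hq : 0 < Q t := hball (by rw [Real.dist_eq, sub_zero, abs_of_pos ht.1]; exact ht.2)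
        rw [Function.mem_support, hFQ t ht.1]
        exact (mul_pos (Real.rpow_pos_of_pos ht.1 _) hq).ne'
      refine lt_of_lt_of_le ?_ (measure_mono hsub)
      rw [Real.volume_Ioo]
      simpa using hε
    · exact (ae_restrict_iff' measurableSet_Ioi).mpr (Filter.Eventually.of_forall hnn)
    · exact hFint
  rw [hval] at hmain
  exact pos_of_mul_pos_left hmain hc0.le

/-! ### the kernel identity at an extremal point -/

lemma antisymm_sum_zero' {n : ℕ} {f : ℕ → ℕ → ℝ} (hf : ∀ j k, f j k = f k j) (w : ℕ → ℝ) :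
    ∑ j ∈ range n, ∑ k ∈ range n, ((k : ℝ) - j) * f j k * (w j * w k) = 0 := by
  have h : ∑ j ∈ range n, ∑ k ∈ range n, ((k : ℝ) - j) * f j k * (w j * w k)
      = - ∑ j ∈ range n, ∑ k ∈ range n, ((k : ℝ) - j) * f j k * (w j * w k) := by
    conv_lhs => rw [Finset.sum_comm]
    rw [← Finset.sum_neg_distrib]
    refine Finset.sum_congr rfl (fun j _ => ?_)
    rw [← Finset.sum_neg_distrib]
    refine Finset.sum_congr rfl (fun k _ => ?_)
    rw [hf k j]
    ring
  linarith

/-- `XH(j, k-1)`, with value `0` for `k = 0` -/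
noncomputable def xp (a : ℕ → ℝ) (j : ℕ) : ℕ → ℝ
  | 0 => 0
  | k + 1 => XH a j k

/-- `a_{k-1} a_k`, with value `0` for `k = 0` -/
noncomputable def ap (a : ℕ → ℝ) : ℕ → ℝ
  | 0 => 0
  | k + 1 => a k * a (k + 1)

lemma XH_shift (a : ℕ → ℝ) (j k : ℕ) :
    XH a j (k + 1) - XH a (j + 1) k
      = a (k + 1) ^ 2 * (a j * a (j + 1)) - a (j + 1) ^ 2 * (a k * a (k + 1)) := by
  rw [XH_eq_BZ, XH_eq_BZ, BZ_succ]
  simp only [sh_succ]
  ring

lemma xp_antisymm (a : ℕ → ℝ) (j k : ℕ) :
    xp a j k - xp a k j = a j ^ 2 * ap a k - a k ^ 2 * ap a j := by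
  rcases j with _ | j <;> rcases k with _ | k
  · simp [xp, ap]
  · simp only [xp, ap]
    have := XH_zero a k
    rw [this]
    ring
  · simp only [xp, ap]
    have := XH_zero a j
    rw [this]
    ring
  · simp only [xp, ap]
    have := XH_shift a j k
    rw [XH_symm a (k + 1) j]
    linarith

lemma xp_top {n : ℕ} {a : ℕ → ℝ} (ha : ∀ k, n < k → a k = 0) (k : ℕ) : xp a n k = 0 := by
  rcases k with _ | k
  · rfl
  · exact XH_top a n k ha

/-- third identity: `∑ (k + 1 - j) XH(j,k) x_j x_{k+1} = 0` -/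
lemma identity_three {n : ℕ} {a x : ℕ → ℝ} (ha : ∀ k, n < k → a k = 0)
    (h0 : ∑ k ∈ range (n + 1), a k ^ 2 * x k = 0)
    (h1 : ∑ k ∈ range (n + 1), (k : ℝ) * a k ^ 2 * x k = 0) :
    ∑ j ∈ range n, ∑ k ∈ range n, ((k : ℝ) + 1 - j) * XH a j k * (x j * x (k + 1)) = 0 := by
  have e1 : ∑ j ∈ range n, ∑ k ∈ range n, ((k : ℝ) + 1 - j) * XH a j k * (x j * x (k + 1))
      = ∑ j ∈ range (n + 1), ∑ k ∈ range (n + 1), ((k : ℝ) - j) * xp a j k * (x j * x k) := by
    rw [Finset.sum_range_succ]
    have hlast : ∑ k ∈ range (n + 1), ((k : ℝ) - n) * xp a n k * (x n * x k) = 0 := by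
      refine Finset.sum_eq_zero (fun k hk => ?_)
      rw [xp_top ha]
      ring
    rw [hlast, add_zero]
    refine Finset.sum_congr rfl (fun j _ => ?_)
    rw [Finset.sum_range_succ']
    simp only [xp, mul_zero, zero_mul, add_zero]
    refine Finset.sum_congr rfl (fun k _ => ?_)
    push_cast
    ring
  rw [e1]
  have e2 : ∑ j ∈ range (n + 1), ∑ k ∈ range (n + 1), ((k : ℝ) - j) * xp a j k * (x j * x k)
      = ∑ j ∈ range (n + 1), ∑ k ∈ range (n + 1), ((j : ℝ) - k) * xp a k j * (x j * x k) := by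
    rw [Finset.sum_comm]
    refine Finset.sum_congr rfl (fun j _ => Finset.sum_congr rfl (fun k _ => ?_))
    ring
  have e3 : 2 * ∑ j ∈ range (n + 1), ∑ k ∈ range (n + 1), ((k : ℝ) - j) * xp a j k * (x j * x k)
      = ∑ j ∈ range (n + 1), ∑ k ∈ range (n + 1),
        ((a j ^ 2 * x j) * ((k : ℝ) * ap a k * x k) - ((j : ℝ) * a j ^ 2 * x j) * (ap a k * x k)
          - (ap a j * x j) * ((k : ℝ) * a k ^ 2 * x k)
          + ((j : ℝ) * ap a j * x j) * (a k ^ 2 * x k)) := by
    rw [two_mul]
    nth_rewrite 2 [e2]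
    rw [← Finset.sum_add_distrib]
    refine Finset.sum_congr rfl (fun j _ => ?_)
    rw [← Finset.sum_add_distrib]
    refine Finset.sum_congr rfl (fun k _ => ?_)
    have := xp_antisymm a j k
    linear_combination ((k : ℝ) - j) * (x j * x k) * this
  have e4 : ∑ j ∈ range (n + 1), ∑ k ∈ range (n + 1),
        ((a j ^ 2 * x j) * ((k : ℝ) * ap a k * x k) - ((j : ℝ) * a j ^ 2 * x j) * (ap a k * x k)
          - (ap a j * x j) * ((k : ℝ) * a k ^ 2 * x k)
          + ((j : ℝ) * ap a j * x j) * (a k ^ 2 * x k)) = 0 := by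
    simp_rw [Finset.sum_add_distrib, Finset.sum_sub_distrib, ← Finset.sum_mul_sum, h0, h1]
    ring
  linarith

/-! ### the touch certificate -/

/-- `φ_l(k) = a^{(l)}_k / a_k` -/
noncomputable def phi (s : Finset ℕ) (y : ℕ → ℝ) (l k : ℕ) : ℝ := cf (s.erase l) y k / cf s y k

/-- `T_k = a_k / a_{k+1}` -/
noncomputable def TT (s : Finset ℕ) (y : ℕ → ℝ) (k : ℕ) : ℝ := cf s y k / cf s y (k + 1)

/-- the form `[2λ + T_j + T_k - (j-k)(T_j-T_k)] X(j,k)` -/
noncomputable def rker (s : Finset ℕ) (y : ℕ → ℝ) (lam : ℝ) (j k : ℕ) : ℝ :=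
  (2 * lam + TT s y j + TT s y k - ((j : ℝ) - k) * (TT s y j - TT s y k)) * KX (cf s y) j k

/-- the kernel inequality on the null space of a touch point -/
def TouchNonneg (s : Finset ℕ) (y : ℕ → ℝ) : Prop :=
  ∀ lam : ℝ, 0 < lam → ∀ w : ℕ → ℝ,
    (∀ l ∈ s, ∑ k ∈ range s.card, w k * ((TT s y k + lam) * phi s y l k) = 0) →
    0 ≤ ∑ j ∈ range s.card, ∑ k ∈ range s.card, rker s y lam j k * (w j * w k)

/-- the conditions at an extremal point, in terms of `x_k = (-1)^k a_k^(r-2)` -/
lemma ep_conditions {s : Finset ℕ} {y : ℕ → ℝ} (hy : ∀ l ∈ s, 0 < y l) {r : ℝ}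
    (h0 : ∑ k ∈ range (s.card + 1), (-1 : ℝ) ^ k * cf s y k ^ r = 0)
    (h1 : ∀ l ∈ s, ∑ k ∈ range s.card,
      (-1 : ℝ) ^ k * (cf s y (k + 1) ^ (r - 1) * cf (s.erase l) y k) = 0) :
    let x : ℕ → ℝ := fun k => (-1 : ℝ) ^ k * cf s y k ^ (r - 2)
    (∑ k ∈ range (s.card + 1), cf s y k ^ 2 * x k = 0) ∧
    (∀ l ∈ s, ∑ k ∈ range (s.card + 1), cf s y k * cl s y l k * x k = 0) ∧
    (∑ k ∈ range (s.card + 1), (k : ℝ) * cf s y k ^ 2 * x k = 0) := by
  have hpos : ∀ k ≤ s.card, 0 < cf s y k := fun k hk => cf_pos hy hk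
  intro x
  have hA : ∑ k ∈ range (s.card + 1), cf s y k ^ 2 * x k = 0 := by
    rw [← h0]
    refine Finset.sum_congr rfl (fun k hk => ?_)
    have hk' := hpos k (by have := mem_range.mp hk; omega)
    simp only [x]
    rw [show cf s y k ^ r = cf s y k ^ (r - 2) * cf s y k ^ 2 by
      rw [← Real.rpow_natCast (cf s y k) 2, ← Real.rpow_add hk']
      congr 1
      push_cast
      ring]
    ring
  have hB : ∀ l ∈ s, ∑ k ∈ range (s.card + 1), cf s y k * cl s y l k * x k = 0 := by
    intro l hl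
    rw [Finset.sum_range_succ', cl_zero]
    have e : ∑ k ∈ range s.card, cf s y (k + 1) * cl s y l (k + 1) * x (k + 1)
        = -(y l) * ∑ k ∈ range s.card,
          (-1 : ℝ) ^ k * (cf s y (k + 1) ^ (r - 1) * cf (s.erase l) y k) := by
      rw [Finset.mul_sum]
      refine Finset.sum_congr rfl (fun k hk => ?_)
      have hk' := hpos (k + 1) (by have := mem_range.mp hk; omega)
      simp only [x]
      rw [cl_succ hl, show cf s y (k + 1) ^ (r - 1)
          = cf s y (k + 1) ^ (r - 2) * cf s y (k + 1) by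
        conv_rhs => rw [← Real.rpow_one (cf s y (k + 1)), ← Real.rpow_mul hk'.le, one_mul,
          ← Real.rpow_add hk']
        congr 1
        ring, pow_succ]
      ring
    rw [e, h1 l hl]
    ring
  refine ⟨hA, hB, ?_⟩
  have e : ∀ k ∈ range (s.card + 1), (k : ℝ) * cf s y k ^ 2 * x k
      = ∑ l ∈ s, cf s y k * cl s y l k * x k := by
    intro k _
    rw [← Finset.sum_mul, ← Finset.mul_sum, sum_cl]
    ring
  rw [Finset.sum_congr rfl e, Finset.sum_comm]
  exact Finset.sum_eq_zero hB

/-- **The touch certificate excludes extremal points.** -/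
theorem noEP_of_touch {r : ℝ} (hr : 2 ≤ r) (hr3 : r < 3)
    (H : ∀ (s : Finset ℕ) (y : ℕ → ℝ), s.Nonempty → (∀ l ∈ s, 0 < y l) → TouchNonneg s y) :
    NoEP r := by
  intro s y hy h0 h1
  rcases s.eq_empty_or_nonempty with rfl | hs
  · rw [Finset.card_empty, zero_add, Finset.sum_range_one, cf_zero] at h0
    norm_num at h0
  have hcard : 0 < s.card := Finset.card_pos.mpr hs
  have hpos : ∀ k ≤ s.card, 0 < cf s y k := fun k hk => cf_pos hy hk
  obtain ⟨hA, hB, hC⟩ := ep_conditions hy h0 h1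
  set x : ℕ → ℝ := fun k => (-1 : ℝ) ^ k * cf s y k ^ (r - 2) with hx
  have hz : ∀ k, s.card < k → cf s y k = 0 := fun k hk => cf_eq_zero y hk
  have I3 := identity_three (x := x) (n := s.card) (a := cf s y) hz hA hC
  have hx' : ∀ k ∈ range s.card, x (k + 1)
      = -((cf s y (k + 1) / cf s y k) ^ (r - 2) * x k) := by
    intro k hk
    have hk1 := hpos (k + 1) (by have := mem_range.mp hk; omega)
    have hk0 := hpos k (by have := mem_range.mp hk; omega)
    simp only [hx]
    rw [Real.div_rpow hk1.le hk0.le, pow_succ]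
    have : cf s y k ^ (r - 2) ≠ 0 := (Real.rpow_pos_of_pos hk0 _).ne'
    field_simp
  have hzero : ∑ j ∈ range s.card, ∑ k ∈ range s.card,
      (((k : ℝ) + 1 - j) * XH (cf s y) j k) * (cf s y (k + 1) / cf s y k) ^ (r - 2) * (x j * x k)
      = 0 := by
    have e : ∑ j ∈ range s.card, ∑ k ∈ range s.card,
      (((k : ℝ) + 1 - j) * XH (cf s y) j k) * (cf s y (k + 1) / cf s y k) ^ (r - 2) * (x j * x k)
      = - ∑ j ∈ range s.card, ∑ k ∈ range s.card,
        ((k : ℝ) + 1 - j) * XH (cf s y) j k * (x j * x (k + 1)) := by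
      rw [← Finset.sum_neg_distrib]
      refine Finset.sum_congr rfl (fun j _ => ?_)
      rw [← Finset.sum_neg_distrib]
      refine Finset.sum_congr rfl (fun k hk => ?_)
      rw [hx' k hk]
      ring
    rw [e, I3, neg_zero]
  -- symmetrisation
  have hsym : ∀ w : ℕ → ℝ, ∑ j ∈ range s.card, ∑ k ∈ range s.card,
      ((k : ℝ) - j) * XH (cf s y) j k * (w j * w k) = 0 :=
    fun w => antisymm_sum_zero' (fun j k => XH_symm _ j k) w
  have hX := XH_pos (pf_cf hy) hz x ⟨0, hcard, by
    simp only [hx, cf_zero, pow_zero, Real.one_rpow]; norm_num⟩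
  have hG1 : 0 < ∑ j ∈ range s.card, ∑ k ∈ range s.card,
      (((k : ℝ) + 1 - j) * XH (cf s y) j k) * (x j * x k) := by
    have h3 : ∑ j ∈ range s.card, ∑ k ∈ range s.card,
        (((k : ℝ) + 1 - j) * XH (cf s y) j k) * (x j * x k)
        = ∑ j ∈ range s.card, ∑ k ∈ range s.card, XH (cf s y) j k * (x j * x k)
          + ∑ j ∈ range s.card, ∑ k ∈ range s.card,
            ((k : ℝ) - j) * XH (cf s y) j k * (x j * x k) := by
      rw [← Finset.sum_add_distrib]
      refine Finset.sum_congr rfl (fun j _ => ?_)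
      rw [← Finset.sum_add_distrib]
      refine Finset.sum_congr rfl (fun k _ => ?_)
      ring
    rw [h3, hsym x, add_zero]
    exact hX
  have hmain := loewner_vec (n := s.card)
    (G := fun j k => ((k : ℝ) + 1 - j) * XH (cf s y) j k)
    (d := fun k => cf s y (k + 1) / cf s y k) (x := x)
    (fun j hj => div_pos (hpos (j + 1) (by omega)) (hpos j (by omega))) hG1 ?_
    (s := r - 2) (by linarith) (by linarith)
  · linarith
  -- the resolvent inequality
  intro t ht
  have hTT : ∀ k < s.card, 0 < TT s y k := fun k hk =>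
    div_pos (hpos k (by omega)) (hpos (k + 1) (by omega))
  set lam : ℝ := 1 / t with hlam
  have hl : 0 < lam := by rw [hlam]; positivity
  set w : ℕ → ℝ := fun k => cf s y k ^ 2 * x k / (TT s y k + lam) with hw
  have hnull : ∀ l ∈ s, ∑ k ∈ range s.card, w k * ((TT s y k + lam) * phi s y l k) = 0 := by
    intro l hl'
    have e : ∀ k ∈ range s.card, w k * ((TT s y k + lam) * phi s y l k)
        = cf s y k ^ 2 * x k - cf s y k * cl s y l k * x k := by
      intro k hk
      have hk' := hpos k (by have := mem_range.mp hk; omega)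
      have h2 : TT s y k + lam ≠ 0 := by
        have := hTT k (mem_range.mp hk)
        positivity
      simp only [hw, phi, cl]
      field_simp
      ring
    rw [Finset.sum_congr rfl e, Finset.sum_sub_distrib]
    have a1 := hA
    have a2 := hB l hl'
    rw [Finset.sum_range_succ] at a1 a2
    have a3 : cf s y s.card * cl s y l s.card * x s.card = cf s y s.card ^ 2 * x s.card := by
      unfold cl
      rw [cf_eq_zero (s := s.erase l) y (k := s.card)
        (by rw [Finset.card_erase_of_mem hl']; omega)]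
      ring
    linarith
  have hfin := H s y hs hy lam hl w hnull
  have key : ∑ j ∈ range s.card, ∑ k ∈ range s.card,
      (((k : ℝ) + 1 - j) * XH (cf s y) j k) *
        ((cf s y (k + 1) / cf s y k) / (t + cf s y (k + 1) / cf s y k)) * (x j * x k)
      = lam / 2 * ∑ j ∈ range s.card, ∑ k ∈ range s.card, rker s y lam j k * (w j * w k) := by
    -- write the left side with `w`
    have e1 : ∀ j ∈ range s.card, ∀ k ∈ range s.card,
        (((k : ℝ) + 1 - j) * XH (cf s y) j k) *
        ((cf s y (k + 1) / cf s y k) / (t + cf s y (k + 1) / cf s y k)) * (x j * x k)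
        = lam * (((k : ℝ) + 1 - j) * (TT s y j + lam) * KX (cf s y) j k * (w j * w k)) := by
      intro j hj k hk
      have hj' := hpos j (by have := mem_range.mp hj; omega)
      have hk' := hpos k (by have := mem_range.mp hk; omega)
      have hk1 := hpos (k + 1) (by have := mem_range.mp hk; omega)
      have hj2 : TT s y j + lam ≠ 0 := by
        have := hTT j (mem_range.mp hj)
        positivity
      have hk2 : cf s y k / cf s y (k + 1) + lam ≠ 0 := by positivity
      have e2 : (cf s y (k + 1) / cf s y k) / (t + cf s y (k + 1) / cf s y k)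
          = lam / (TT s y k + lam) := by
        unfold TT
        rw [hlam]
        field_simp
      rw [e2]
      simp only [hw, KX]
      have hk3 : TT s y k + lam ≠ 0 := hk2
      field_simp
    rw [Finset.sum_congr rfl (fun j hj => Finset.sum_congr rfl (fun k hk => e1 j hj k hk))]
    simp_rw [← Finset.mul_sum]
    have e3 : ∑ j ∈ range s.card, ∑ k ∈ range s.card,
        ((k : ℝ) + 1 - j) * (TT s y j + lam) * KX (cf s y) j k * (w j * w k)
        = ∑ j ∈ range s.card, ∑ k ∈ range s.card,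
        ((j : ℝ) + 1 - k) * (TT s y k + lam) * KX (cf s y) j k * (w j * w k) := by
      rw [Finset.sum_comm]
      refine Finset.sum_congr rfl (fun j _ => Finset.sum_congr rfl (fun k _ => ?_))
      rw [KX_symm]
      ring
    have e4 : ∑ j ∈ range s.card, ∑ k ∈ range s.card, rker s y lam j k * (w j * w k)
        = ∑ j ∈ range s.card, ∑ k ∈ range s.card,
          ((k : ℝ) + 1 - j) * (TT s y j + lam) * KX (cf s y) j k * (w j * w k)
        + ∑ j ∈ range s.card, ∑ k ∈ range s.card,
          ((j : ℝ) + 1 - k) * (TT s y k + lam) * KX (cf s y) j k * (w j * w k) := by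
      rw [← Finset.sum_add_distrib]
      refine Finset.sum_congr rfl (fun j _ => ?_)
      rw [← Finset.sum_add_distrib]
      refine Finset.sum_congr rfl (fun k _ => ?_)
      unfold rker
      ring
    rw [e4, ← e3]
    ring
  show 0 ≤ ∑ j ∈ range s.card, ∑ k ∈ range s.card,
      (((k : ℝ) + 1 - j) * XH (cf s y) j k) *
        ((cf s y (k + 1) / cf s y k) / (t + cf s y (k + 1) / cf s y k)) * (x j * x k)
  rw [key]
  positivity

end Pool.Agent.K80
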