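import Mathlib
import Pool.Agent.K80.Touch

/-!
# K80: full-space certificates (Lagrange form) and the consequences
-/

open Polynomial Finset

namespace Pool.Agent.K80

open B4 hiding cf cf_zero cf_eq_zero cf_pos
open Pool.Agent.ST50 Pool.Agent.ST11

/-- Lagrange form: for every `λ > 0` there are functions `u_l` such that
`rker + 2 ∑_l (T_j + λ) φ_l(j) u_l(k) ≥ 0` as a form on all of `ℝ^n`. -/
def LagrangeNonneg (s : Finset ℕ) (y : ℕ → ℝ) : Prop :=
  ∀ lam : ℝ, 0 < lam → ∃ u : ℕ → ℕ → ℝ, ∀ w : ℕ → ℝ,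
    0 ≤ ∑ j ∈ range s.card, ∑ k ∈ range s.card,
      (rker s y lam j k + ∑ l ∈ s, (TT s y j + lam) * phi s y l j * u l k) * (w j * w k)

theorem touch_of_lagrange {s : Finset ℕ} {y : ℕ → ℝ} (h : LagrangeNonneg s y) :
    TouchNonneg s y := by
  intro lam hlam w hw
  obtain ⟨u, hu⟩ := h lam hlam
  refine (hu w).trans_eq ?_
  have e : ∑ j ∈ range s.card, ∑ k ∈ range s.card,
      (∑ l ∈ s, (TT s y j + lam) * phi s y l j * u l k) * (w j * w k) = 0 := by
    have e1 : ∀ j ∈ range s.card, ∀ k ∈ range s.card,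
        (∑ l ∈ s, (TT s y j + lam) * phi s y l j * u l k) * (w j * w k)
        = ∑ l ∈ s, (w j * ((TT s y j + lam) * phi s y l j)) * (u l k * w k) := by
      intro j _ k _
      rw [Finset.sum_mul]
      refine Finset.sum_congr rfl (fun l _ => ?_)
      ring
    rw [Finset.sum_congr rfl (fun j hj => Finset.sum_congr rfl (fun k hk => e1 j hj k hk))]
    rw [Finset.sum_congr rfl (fun j _ => Finset.sum_comm), Finset.sum_comm]
    refine Finset.sum_eq_zero (fun l hl => ?_)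
    rw [← Finset.sum_mul_sum, hw l hl, zero_mul]
  rw [← add_zero (∑ j ∈ range s.card, ∑ k ∈ range s.card, rker s y lam j k * (w j * w k)), ← e,
    ← Finset.sum_add_distrib]
  refine Finset.sum_congr rfl (fun j _ => ?_)
  rw [← Finset.sum_add_distrib]
  refine Finset.sum_congr rfl (fun k _ => ?_)
  ring

/-- `F_λ(j) = ∑_l y_l (T_j + λ) φ_l(j) / (1 + λ y_l)` -/
noncomputable def Flam (s : Finset ℕ) (y : ℕ → ℝ) (lam : ℝ) (j : ℕ) : ℝ :=
  ∑ l ∈ s, y l * (TT s y j + lam) * phi s y l j / (1 + lam * y l)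

/-- The inequality `(K_λ)` for every `λ > 0`:
`[2λ + T_j + T_k - (j-k)(T_j-T_k)] X(j,k) + c F_λ(j) + c F_λ(k) ≥ 0` on all of `ℝ^n`. -/
def KNonneg (c : ℝ) (s : Finset ℕ) (y : ℕ → ℝ) : Prop :=
  ∀ lam : ℝ, 0 < lam → ∀ w : ℕ → ℝ,
    0 ≤ ∑ j ∈ range s.card, ∑ k ∈ range s.card,
      (rker s y lam j k + c * (Flam s y lam j + Flam s y lam k)) * (w j * w k)

theorem touch_of_K {c : ℝ} {s : Finset ℕ} {y : ℕ → ℝ} (h : KNonneg c s y) : TouchNonneg s y := by
  refine touch_of_lagrange (fun lam hlam => ⟨fun l _ => 2 * c * (y l / (1 + lam * y l)),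
    fun w => (h lam hlam w).trans_eq ?_⟩)
  have e : ∑ j ∈ range s.card, ∑ k ∈ range s.card, c * Flam s y lam k * (w j * w k)
      = ∑ j ∈ range s.card, ∑ k ∈ range s.card, c * Flam s y lam j * (w j * w k) := by
    rw [Finset.sum_comm]
    refine Finset.sum_congr rfl (fun j _ => Finset.sum_congr rfl (fun k _ => ?_))
    ring
  have e1 : ∑ j ∈ range s.card, ∑ k ∈ range s.card,
      (rker s y lam j k + c * (Flam s y lam j + Flam s y lam k)) * (w j * w k)
      = ∑ j ∈ range s.card, ∑ k ∈ range s.card, rker s y lam j k * (w j * w k)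
        + ∑ j ∈ range s.card, ∑ k ∈ range s.card, c * Flam s y lam j * (w j * w k)
        + ∑ j ∈ range s.card, ∑ k ∈ range s.card, c * Flam s y lam k * (w j * w k) := by
    rw [← Finset.sum_add_distrib, ← Finset.sum_add_distrib]
    refine Finset.sum_congr rfl (fun j _ => ?_)
    rw [← Finset.sum_add_distrib, ← Finset.sum_add_distrib]
    refine Finset.sum_congr rfl (fun k _ => ?_)
    ring
  rw [e1, e, ← Finset.sum_add_distrib, ← Finset.sum_add_distrib]
  refine Finset.sum_congr rfl (fun j _ => ?_)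
  rw [← Finset.sum_add_distrib, ← Finset.sum_add_distrib]
  refine Finset.sum_congr rfl (fun k _ => ?_)
  have e2 : ∑ l ∈ s, (TT s y j + lam) * phi s y l j * (2 * c * (y l / (1 + lam * y l)))
      = 2 * c * Flam s y lam j := by
    unfold Flam
    rw [Finset.mul_sum]
    refine Finset.sum_congr rfl (fun l _ => ?_)
    ring
  rw [e2]
  ring

/-- `(STAR_λ)`: `∑_l y_l φ_l φ_l' [(T_j+λ) + (T_k+λ) + c (y_l/(1+λ y_l)) (T_j+λ)(T_k+λ)]
- (j-k)(T_j-T_k) X ≥ 0` on all of `ℝ^n`, for every `λ > 0`. -/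
def StarLam (c : ℝ) (s : Finset ℕ) (y : ℕ → ℝ) : Prop :=
  ∀ lam : ℝ, 0 < lam → ∀ w : ℕ → ℝ,
    0 ≤ ∑ j ∈ range s.card, ∑ k ∈ range s.card,
      (∑ l ∈ s, y l * (phi s y l j * phi s y l k) *
          ((TT s y j + lam) + (TT s y k + lam)
            + c * (y l / (1 + lam * y l)) * ((TT s y j + lam) * (TT s y k + lam)))
        - ((j : ℝ) - k) * (TT s y j - TT s y k) * KX (cf s y) j k) * (w j * w k)

/-- `(T_j + T_k) X ≥ 0` -/
def TXNonneg (s : Finset ℕ) (y : ℕ → ℝ) : Prop :=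
  ∀ w : ℕ → ℝ, 0 ≤ ∑ j ∈ range s.card, ∑ k ∈ range s.card,
    (TT s y j + TT s y k) * KX (cf s y) j k * (w j * w k)

lemma KX_nonneg {s : Finset ℕ} {y : ℕ → ℝ} (hy : ∀ l ∈ s, 0 < y l) (w : ℕ → ℝ) :
    0 ≤ ∑ j ∈ range s.card, ∑ k ∈ range s.card, KX (cf s y) j k * (w j * w k) := by
  set v : ℕ → ℝ := fun k => w k / cf s y k ^ 2 with hv
  have e : ∑ j ∈ range s.card, ∑ k ∈ range s.card, KX (cf s y) j k * (w j * w k)
      = ∑ j ∈ range s.card, ∑ k ∈ range s.card, XH (cf s y) j k * (v j * v k) := by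
    refine Finset.sum_congr rfl (fun j _ => Finset.sum_congr rfl (fun k _ => ?_))
    simp only [hv, KX]
    ring
  rw [e]
  by_cases h : ∃ k < s.card, v k ≠ 0
  · exact (XH_pos (pf_cf hy) (fun k hk => cf_eq_zero y hk) v h).le
  · push Not at h
    apply le_of_eq
    symm
    refine Finset.sum_eq_zero (fun j hj => Finset.sum_eq_zero (fun k _ => ?_))
    rw [h j (mem_range.mp hj)]
    ring

theorem touch_of_star {c : ℝ} {s : Finset ℕ} {y : ℕ → ℝ} (hy : ∀ l ∈ s, 0 < y l)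
    (h : StarLam c s y) (hT : TXNonneg s y) : TouchNonneg s y := by
  refine touch_of_lagrange (fun lam hlam => ⟨fun l k => y l * phi s y l k *
    (2 + c * (y l / (1 + lam * y l)) * (TT s y k + lam)), fun w => ?_⟩)
  have h1 := h lam hlam w
  have h2 := hT w
  have h3 := mul_nonneg (mul_nonneg zero_le_two hlam.le) (KX_nonneg hy w)
  have hsum := add_nonneg (add_nonneg h1 h2) h3
  refine hsum.trans_eq ?_
  -- the antisymmetric part of the multiplier drops out
  have e : ∑ j ∈ range s.card, ∑ k ∈ range s.card,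
      (∑ l ∈ s, y l * (phi s y l j * phi s y l k) * (TT s y k - TT s y j)) * (w j * w k) = 0 := by
    have e' : ∑ j ∈ range s.card, ∑ k ∈ range s.card,
        (∑ l ∈ s, y l * (phi s y l j * phi s y l k) * (TT s y k - TT s y j)) * (w j * w k)
        = - ∑ j ∈ range s.card, ∑ k ∈ range s.card,
        (∑ l ∈ s, y l * (phi s y l j * phi s y l k) * (TT s y k - TT s y j)) * (w j * w k) := by
      conv_lhs => rw [Finset.sum_comm]
      rw [← Finset.sum_neg_distrib]
      refine Finset.sum_congr rfl (fun j _ => ?_)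
      rw [← Finset.sum_neg_distrib]
      refine Finset.sum_congr rfl (fun k _ => ?_)
      rw [← neg_mul, ← Finset.sum_neg_distrib]
      congr 1
      · refine Finset.sum_congr rfl (fun l _ => ?_)
        ring
      · ring
    linarith
  rw [Finset.mul_sum, ← Finset.sum_add_distrib, ← Finset.sum_add_distrib,
    ← sub_zero (∑ j ∈ range s.card, (_ + _ + _)), ← e, ← Finset.sum_sub_distrib]
  refine Finset.sum_congr rfl (fun j _ => ?_)
  rw [Finset.mul_sum, ← Finset.sum_add_distrib, ← Finset.sum_add_distrib,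
    ← Finset.sum_sub_distrib]
  refine Finset.sum_congr rfl (fun k _ => ?_)
  have e2 : ∑ l ∈ s, (TT s y j + lam) * phi s y l j * (y l * phi s y l k *
        (2 + c * (y l / (1 + lam * y l)) * (TT s y k + lam)))
      = ∑ l ∈ s, y l * (phi s y l j * phi s y l k) *
          ((TT s y j + lam) + (TT s y k + lam)
            + c * (y l / (1 + lam * y l)) * ((TT s y j + lam) * (TT s y k + lam)))
        - ∑ l ∈ s, y l * (phi s y l j * phi s y l k) * (TT s y k - TT s y j) := by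
    rw [← Finset.sum_sub_distrib]
    refine Finset.sum_congr rfl (fun l _ => ?_)
    ring
  rw [e2]
  unfold rker
  ring

/-! ### consequences -/

/-- the hypothesis: the touch certificate for all positive `y` -/
def TouchHyp : Prop :=
  ∀ (s : Finset ℕ) (y : ℕ → ℝ), s.Nonempty → (∀ l ∈ s, 0 < y l) → TouchNonneg s y

theorem pf_rpow_of_touch (H : TouchHyp) {n : ℕ} {a : ℕ → ℝ} (ha : Pool.Agent.H62LR.PF n a)
    {r : ℝ} (hr : 2 ≤ r) : Pool.Agent.H62LR.PF n (fun k => a k ^ r) :=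
  pf_rpow (fun _ h2 h3 => noEP_of_touch h2 h3 H) ha hr

theorem classification_of_touch (H : TouchHyp) (F : ℝ → ℝ) (hF0 : F 0 = 0)
    (hFnn : ∀ t, 0 ≤ t → 0 ≤ F t) :
    Pool.Agent.H49.RR.Preserves F ↔ (∀ t, 0 ≤ t → F t = 0) ∨
      ∃ c r : ℝ, 0 < c ∧ (r = 1 ∨ 2 ≤ r) ∧ ∀ t, 0 ≤ t → F t = c * t ^ r :=
  classification (fun _ h2 h3 => noEP_of_touch h2 h3 H) F hF0 hFnn

theorem touchHyp_of_K (H : ∀ (s : Finset ℕ) (y : ℕ → ℝ), s.Nonempty → (∀ l ∈ s, 0 < y l) →
    ∃ c : ℝ, KNonneg c s y) : TouchHyp :=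
  fun s y hs hy => let ⟨_, hc⟩ := H s y hs hy; touch_of_K hc

theorem touchHyp_of_star (H : ∀ (s : Finset ℕ) (y : ℕ → ℝ), s.Nonempty → (∀ l ∈ s, 0 < y l) →
    (∃ c : ℝ, StarLam c s y) ∧ TXNonneg s y) : TouchHyp :=
  fun s y hs hy => let ⟨⟨_, hc⟩, hT⟩ := H s y hs hy; touch_of_star hy hc hT

end Pool.Agent.K80
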